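import Pool.Agent.H389R2.KP.Main

/-!
Critical bond percolation in the half-plane `ℤ × ℕ`, with open edges on the negative half-axis and
closed edges on the positive half-axis: the probabilities that the exploration path started at the
origin visits given boundary points, or enters given boundary squares, for any number of points
and squares and at all scales, up to multiplicative constants.
-/

namespace Pool.Agent.Results.MP_6c8efb_pr.BoundaryKPoint

open MeasureTheory Finset

/-- Edges of `ℤ × ℕ`: `(x, y, true)` joins `(x, y)` and `(x + 1, y)`; `(x, y, false)` joins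
`(x, y)` and `(x, y + 1)`. -/
abbrev Edge := ℤ × ℕ × Bool

/-- Configurations. -/
abbrev Conf := Edge → Bool

/-- Independent fair coins on the edges (`p = 1 / 2`). -/
noncomputable def perc : Measure Conf :=
  Measure.infinitePi (fun _ : Edge => (PMF.uniformOfFintype Bool).toMeasure)

/-- The edges `[x, x + 1]` of the real axis are open for `x < 0` and closed for `x ≥ 0`; the other
edges follow the coins. -/
def IsOpen (ω : Conf) (e : Edge) : Prop :=
  if e.2.1 = 0 ∧ e.2.2 = true then e.1 < 0 else ω e = true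

/-- `u` and `v` are the left (lower) and right (upper) end of an open edge. -/
def Joined (ω : Conf) (u v : ℤ × ℕ) : Prop :=
  (v = (u.1 + 1, u.2) ∧ IsOpen ω (u.1, u.2, true)) ∨
    (v = (u.1, u.2 + 1) ∧ IsOpen ω (u.1, u.2, false))

/-- `C_-`: the negative half-axis and all open clusters attached to it, i.e. the set of all
vertices which are connected to the origin by open edges. -/
def Cminus (ω : Conf) : Set (ℤ × ℕ) := {v | Relation.EqvGen (Joined ω) (0, 0) v}

/-- `C_-` meets the square `[a, b] × [0, b - a]`. -/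
def Enters (ω : Conf) (a b : ℤ) : Prop :=
  ∃ v : ℤ × ℕ, ((a ≤ v.1 ∧ v.1 ≤ b) ∧ (v.2 : ℤ) ≤ b - a) ∧ v ∈ Cminus ω

/-- `C_-` contains a boundary point `(x, 0)` with `a ≤ x ≤ b`. -/
def Touches (ω : Conf) (a b : ℤ) : Prop :=
  ∃ v : ℤ × ℕ, ((a ≤ v.1 ∧ v.1 ≤ b) ∧ v.2 = 0) ∧ v ∈ Cminus ω

/-- `((length of [a, b]) / (distance from p to b)) ^ (1 / 3)`, counting lattice points. -/
noncomputable def fac (p a b : ℤ) : ℝ :=
  (((b : ℝ) - a + 1) / ((b : ℝ) - p + 1)) ^ ((1 : ℝ) / 3)

/-- Boundary `k`-point functions. -/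
theorem result : ∃ c C : ℝ, 0 < c ∧ 0 < C ∧ ∀ (k : ℕ) (a b : ℕ → ℤ), b 0 = 0 →
    (∀ i < k, b i < a (i + 1) ∧ a (i + 1) ≤ b (i + 1)) →
    perc.real {ω | ∀ i < k, Enters ω (a (i + 1)) (b (i + 1))} ≤
      ∏ i ∈ range k, (C * fac (b i) (a (i + 1)) (b (i + 1))) ∧
    ((∀ i, i + 1 < k → b (i + 1) - a (i + 1) + 1 ≤ a (i + 2) - b (i + 1)) →
      ∏ i ∈ range k, (c * fac (b i) (a (i + 1)) (b (i + 1))) ≤
        perc.real {ω | ∀ i < k, Touches ω (a (i + 1)) (b (i + 1))}) :=
  H389KP.main_thm

end Pool.Agent.Results.MP_6c8efb_pr.BoundaryKPoint
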