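import Pool.Agent.H389R2.KP.Final

/-!
Critical bond percolation in the half-plane `ℤ × ℕ`, with open edges on the negative half-axis and
closed edges on the positive half-axis: the number `N_m` of boundary points `(x, 0)`,
`1 ≤ x ≤ m`, visited by the exploration path started at the origin. Tails of `N_m / m ^ (2 / 3)`
and the law of the iterated logarithm.
-/

namespace Pool.Agent.Results.MP_6c8efb_pr.BoundaryVisits

open MeasureTheory Filter

/-- Edges of `ℤ × ℕ`: `(x, y, true)` joins `(x, y)` and `(x + 1, y)`; `(x, y, false)` joins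
`(x, y)` and `(x, y + 1)`. -/
abbrev Edge := ℤ × ℕ × Bool

/-- Configurations. -/
abbrev Conf := Edge → Bool

/-- Independent fair coins on the edges (`p = 1 / 2`). -/
noncomputable def perc : Measure Conf :=
  Measure.infinitePi (fun _ : Edge => (PMF.uniformOfFintype Bool).toMeasure)

/-- The edges `[x, x + 1]` of the real axis are open for `x < 0` and closed for `x ≥ 0`; the other
edges follow the coins. -/
def IsOpen (ω : Conf) (e : Edge) : Prop :=
  if e.2.1 = 0 ∧ e.2.2 = true then e.1 < 0 else ω e = true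

/-- `u` and `v` are the left (lower) and right (upper) end of an open edge. -/
def Joined (ω : Conf) (u v : ℤ × ℕ) : Prop :=
  (v = (u.1 + 1, u.2) ∧ IsOpen ω (u.1, u.2, true)) ∨
    (v = (u.1, u.2 + 1) ∧ IsOpen ω (u.1, u.2, false))

/-- `C_-`: the negative half-axis and all open clusters attached to it, i.e. the set of all
vertices which are connected to the origin by open edges. -/
def Cminus (ω : Conf) : Set (ℤ × ℕ) := {v | Relation.EqvGen (Joined ω) (0, 0) v}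

/-- `N_m`: the number of boundary points `(x, 0)` with `1 ≤ x ≤ m` which belong to `C_-`. -/
noncomputable def visits (m : ℕ) (ω : Conf) : ℕ :=
  {x : ℕ | (1 ≤ x ∧ x ≤ m) ∧ ((x : ℤ), 0) ∈ Cminus ω}.ncard

/-- Upper tail, large deviations, lower tail, and almost sure growth of the number of visits. -/
theorem result : ∃ c C : ℝ, 0 < c ∧ 0 < C ∧
    (∀ m : ℕ, 1 ≤ m → ∀ t : ℝ, 0 ≤ t →
      perc.real {ω | t * (m : ℝ) ^ ((2:ℝ) / 3) ≤ visits m ω} ≤ C * Real.exp (-(c * t ^ 3))) ∧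
    (∀ m : ℕ, ∀ t : ℝ, 1 ≤ t → t ≤ c * (m : ℝ) ^ ((1:ℝ) / 3) →
      Real.exp (-(C * t ^ 3)) ≤ perc.real {ω | c * t * (m : ℝ) ^ ((2:ℝ) / 3) ≤ visits m ω}) ∧
    (∀ m : ℕ, 1 ≤ m → ∀ t : ℝ, 1 ≤ t → t ≤ (m : ℝ) ^ ((2:ℝ) / 3) →
      perc.real {ω | (visits m ω : ℝ) < (m : ℝ) ^ ((2:ℝ) / 3) / t} ≤ C * t ^ (-c)) ∧
    (∀ᵐ ω ∂perc,
      (∀ᶠ m : ℕ in atTop, (visits m ω : ℝ) ≤
        C * (m : ℝ) ^ ((2:ℝ) / 3) * (Real.log (Real.log m)) ^ ((1:ℝ) / 3)) ∧
      (∃ᶠ m : ℕ in atTop,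
        c * (m : ℝ) ^ ((2:ℝ) / 3) * (Real.log (Real.log m)) ^ ((1:ℝ) / 3) ≤ visits m ω) ∧
      (∀ᶠ m : ℕ in atTop, (m : ℝ) ^ ((2:ℝ) / 3) * (Real.log m) ^ (-C) ≤ visits m ω)) :=
  H389KP.final

end Pool.Agent.Results.MP_6c8efb_pr.BoundaryVisits
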