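import Pool.Agent.H984R4.HN.NoZero
import Pool.Agent.H984R3.Per.UpPi
import Pool.Agent.H984R3.Per.LowEV
import Pool.Agent.H985R3.TA.Main
import Pool.Agent.H985R3.TA.STA

/-!
# Displacement of the half-plane exploration path of critical bond percolation on `ℤ²`

Critical bond percolation on `ℤ × ℕ`, the edges `[x, x + 1]` of the real axis open for `x < 0` and
closed for `x ≥ 0`. The exploration path starts next to the origin and keeps the open cluster `C_-`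
of the negative half-axis on its left; `gam ω k` is its point after `k` steps (at distance `1/4`
from the edges at a vertex of `C_-`). Its distance from the origin after `n` steps is of order
`n ^ (4/7)`: all positive moments, almost sure exponent, tails of the maximum. The rescaled curves
`n ^ (-4/7) γ(n t)`, `0 ≤ t ≤ 1`, are tight, and every limit law is supported by curves in the closed
half-plane which start at `0`, never return to `0`, have dimension `7/4` on every subarc and exact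
Hölder exponent `4/7`.

Definitions: `Pool.Agent.H984R4.HN.HPDefs` (`Conf`, `perc`, `opn`, `step`, `path`, `place`, `gam`,
`curve`, `reach`), `Pool.Agent.H984R4.HN.FinalH` (`lawH`), `Pool.Agent.H984R4.NP.Model` (`pl`,
`clamp`).
-/

namespace Pool.Agent.Results.MP_6c8efb_pr.Displacement

open H984H MeasureTheory Filter Topology

/-- The two-arm bounds in the form used below. -/
theorem inputs : (∃ c : ℝ, 0 < c ∧ H984P.LowA c (1/4)) ∧
    (∃ C : ℝ, 0 < C ∧ H342P.TwoUp C (1/4)) ∧ (∃ C : ℝ, 0 < C ∧ AnnUp C) := by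
  refine ⟨?_, ?_, ?_⟩
  · obtain ⟨B, m0, κ, hκ, h⟩ := H985T.EV_lower
    obtain ⟨c, hc, h2⟩ := H984P.lowA_of_EV (B := B) (m0 := m0) (s := 1/4) hκ (by norm_num)
      (fun m hm => by
        obtain ⟨ρ, c, s, c', f0, h1, h2, h3⟩ := h m hm
        exact ⟨ρ, c, s, c', f0, h2, h1, h3⟩)
    exact ⟨c, hc, h2⟩
  · obtain ⟨C, hC, h⟩ := H985T.pi2_upper
    exact ⟨C, hC, H984P.twoUp_of_pi2 hC (by norm_num) h⟩
  · obtain ⟨C, hC, h⟩ := H985T.st_A
    exact ⟨C, hC, fun r R hr hR c1 c2 S => h r R hr hR c1 c2 S⟩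

theorem result :
    (∀ ω : Conf, Function.Injective (path ω) ∧
      ∀ k, H974.Reach (opn ω) (0, 0) (path ω k).1) ∧
    (∀ p : ℝ, 0 < p → ∃ c C : ℝ, 0 < c ∧ 0 < C ∧ ∀ n : ℕ, 1 ≤ n →
      c * (n : ℝ) ^ (4/7 * p) ≤ ∫ ω, ‖gam ω n‖ ^ p ∂perc ∧
      ∫ ω, ‖gam ω n‖ ^ p ∂perc ≤ C * (n : ℝ) ^ (4/7 * p)) ∧
    (∀ᵐ ω ∂perc, Tendsto (fun n : ℕ => Real.log ‖gam ω n‖ / Real.log n) atTop (𝓝 (4/7))) ∧
    (∃ a A : ℝ, 0 < a ∧ 0 < A ∧ ∀ (n : ℕ) (x : ℝ), 1 ≤ n → 0 < x →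
      perc.real {ω | x * (n : ℝ) ^ (4/7 : ℝ) ≤ reach n ω} ≤ A * Real.exp (-(a * x ^ (1/2 : ℝ))) ∧
      perc.real {ω | reach n ω ≤ x * (n : ℝ) ^ (4/7 : ℝ)} ≤ A * x ^ (7/4 : ℝ)) ∧
    (∀ φ : ℕ → ℕ, Tendsto φ atTop atTop → ∃ ψ : ℕ → ℕ, StrictMono ψ ∧
      ∃ μ : ProbabilityMeasure C(unitInterval, ℂ),
        Tendsto (fun i => lawH (φ (ψ i))) atTop (𝓝 μ)) ∧
    (∀ φ : ℕ → ℕ, Tendsto φ atTop atTop → ∀ μ : ProbabilityMeasure C(unitInterval, ℂ),
      Tendsto (fun i => lawH (φ i)) atTop (𝓝 μ) →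
      ∀ᵐ f : C(unitInterval, ℂ) ∂(μ : Measure C(unitInterval, ℂ)), f 0 = 0 ∧
        (∀ s : unitInterval, 0 ≤ (f s).im) ∧
        (∀ s : unitInterval, 0 < s → f s ≠ 0) ∧
        (∀ s t : unitInterval, s < t → dimH (f '' Set.Icc s t) = 7 / 4) ∧
        (∀ β : ℝ, 0 < β → β < 4/7 → ∃ Λ : ℝ, ∀ s t : unitInterval,
          dist (f s) (f t) ≤ Λ * |(s : ℝ) - t| ^ β) ∧
        (∀ β : ℝ, 4/7 < β → ∀ s t : unitInterval, s < t →
          ¬ ∃ Λ : ℝ, ∀ u ∈ Set.Icc s t, ∀ v ∈ Set.Icc s t,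
            dist (f u) (f v) ≤ Λ * |(u : ℝ) - v| ^ β)) := by
  obtain ⟨⟨c, hc, hL⟩, ⟨C, hC, hU⟩, C2, hC2, hA⟩ := inputs
  obtain ⟨⟨a, A, ha, hA0, htail⟩, -, -, h4, h5⟩ := finalH hc hC hL hU hC2 hA
  have hup := fun (n : ℕ) (x : ℝ) (hn : 1 ≤ n) (hx : 0 < x) => (htail n x hn hx).1
  have hlow := fun (n : ℕ) (x : ℝ) (hn : 1 ≤ n) (hx : 0 < x) => (htail n x hn hx).2
  refine ⟨fun ω => ⟨fun i j hij => ?_, path_clu ω⟩, fun p hp => ?_, ?_, ⟨a, A, ha, hA0, htail⟩,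
    h4, ?_⟩
  · by_contra hne
    exact path_inj ω hne hij
  · exact disp_moments ha hA0 hA0 hup hlow hp
  · exact disp_as ha hA0 hA0 hup hlow
  · intro φ hφ μ hμ
    filter_upwards [h5 φ hφ μ hμ, lim_nozero hφ hμ] with f hf hz
    obtain ⟨g1, g2, g3, g4, g5⟩ := hf
    refine ⟨g1, g2, fun s hs hs0 => ?_, g3, g4, g5⟩
    have hall : ∀ u ∈ Set.Icc (0 : unitInterval) s, f u = 0 := by
      intro u hu
      by_contra hne
      exact hz u s hu.2 hne hs0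
    have himg : f '' Set.Icc (0 : unitInterval) s = {0} := by
      ext z
      constructor
      · rintro ⟨u, hu, rfl⟩
        exact hall u hu
      · rintro rfl
        exact ⟨0, ⟨le_rfl, hs.le⟩, g1⟩
    have h := g3 0 s hs
    rw [himg, dimH_singleton] at h
    have h7 : (7 / 4 : ENNReal) ≠ 0 := by
      rw [Ne, ENNReal.div_eq_zero_iff, not_or]
      exact ⟨by norm_num, by norm_num⟩
    exact h7 h.symm

end Pool.Agent.Results.MP_6c8efb_pr.Displacement
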