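import Pool.Agent.H731R5.Gr.HPfin2
import Pool.Agent.H985R3.TA.STA
import Pool.Agent.H934R3.SL.SL

/-!
Critical bond percolation in the half-plane `ℤ × ℕ`, with open edges on the negative half-axis and
closed edges on the positive half-axis. The probability that the exploration path started at the
origin passes at distance at most `r` of the point `z = (x, y)`, for all `z` with `y ≥ 1` and all
`r ≤ y / 2`, is comparable to `((r + 1) / y) ^ (1 / 4) * (y / |z|) ^ (1 / 3)`: the Green function
of chordal SLE₆ from `0` to `∞`.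
-/

namespace Pool.Agent.Results.MP_6c8efb_pr.GreenFunction

open MeasureTheory

/-- Edges of `ℤ × ℕ`: `(x, y, true)` joins `(x, y)` and `(x + 1, y)`; `(x, y, false)` joins
`(x, y)` and `(x, y + 1)`. -/
abbrev Edge := ℤ × ℕ × Bool

/-- Configurations. -/
abbrev Conf := Edge → Bool

/-- Independent fair coins on the edges (`p = 1 / 2`). -/
noncomputable def perc : Measure Conf :=
  Measure.infinitePi (fun _ : Edge => (PMF.uniformOfFintype Bool).toMeasure)

/-- The edges `[x, x + 1]` of the real axis are open for `x < 0` and closed for `x ≥ 0`; the other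
edges follow the coins. -/
def IsOpen (ω : Conf) (e : Edge) : Prop :=
  if e.2.1 = 0 ∧ e.2.2 = true then e.1 < 0 else ω e = true

/-- `u` and `v` are the left (lower) and right (upper) end of an open edge. -/
def Joined (ω : Conf) (u v : ℤ × ℕ) : Prop :=
  (v = (u.1 + 1, u.2) ∧ IsOpen ω (u.1, u.2, true)) ∨
    (v = (u.1, u.2 + 1) ∧ IsOpen ω (u.1, u.2, false))

/-- `C_-`: the negative half-axis and all open clusters attached to it, i.e. the set of all
vertices which are connected to the origin by open edges. -/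
def Cminus (ω : Conf) : Set (ℤ × ℕ) := {v | Relation.EqvGen (Joined ω) (0, 0) v}

/-- The dual vertex `(x, y)` is the point `(x + 1 / 2, y - 1 / 2)` of the plane. `f` and `g` are the
lower (left) and upper (right) end of a dual edge which crosses a closed edge, or which belongs to
the dual positive half-line `(1 - i) / 2 + ℕ`. -/
def DualJoined (ω : Conf) (f g : ℤ × ℕ) : Prop :=
  (g = (f.1, f.2 + 1) ∧ ¬ IsOpen ω (f.1, f.2, true)) ∨
    (g = (f.1 + 1, f.2) ∧
      ((f.2 = 0 ∧ 0 ≤ f.1) ∨ (1 ≤ f.2 ∧ ¬ IsOpen ω (f.1 + 1, f.2 - 1, false))))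

/-- The dual open cluster attached to the dual positive half-line. -/
def Cplus (ω : Conf) : Set (ℤ × ℕ) := {f | Relation.EqvGen (DualJoined ω) (0, 0) f}

/-- The exploration path passes at the vertex `v`: `v` belongs to `C_-` and one of the dual vertices
at distance `(1 / 2, 1 / 2)` of `v` belongs to the dual cluster of the positive half-line; the path
separates the two clusters and passes between these two points. -/
def Visited (ω : Conf) (v : ℤ × ℕ) : Prop :=
  v ∈ Cminus ω ∧ ∃ f ∈ Cplus ω, (v.1 = f.1 ∨ v.1 = f.1 + 1) ∧ (f.2 = v.2 ∨ f.2 = v.2 + 1)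

/-- The path passes at a vertex at distance at most `r` (maximum norm) from `(x, y)`. -/
def Passes (ω : Conf) (x : ℤ) (y r : ℕ) : Prop :=
  ∃ u : ℤ × ℕ, (|u.1 - x| ≤ r ∧ |(u.2 : ℤ) - y| ≤ r) ∧ Visited ω u

/-- **Green function of the exploration path in the half-plane, up to constants.** -/
theorem result : ∃ c C : ℝ, 0 < c ∧ 0 < C ∧ ∀ (x : ℤ) (y r : ℕ), 1 ≤ y → 2 * r ≤ y →
    c * (((r : ℝ) + 1) / y) ^ ((1 : ℝ) / 4) * ((y : ℝ) / (|(x : ℝ)| + y)) ^ ((1 : ℝ) / 3) ≤
        perc.real {ω | Passes ω x y r} ∧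
      perc.real {ω | Passes ω x y r} ≤
        C * (((r : ℝ) + 1) / y) ^ ((1 : ℝ) / 4) *
          ((y : ℝ) / (|(x : ℝ)| + y)) ^ ((1 : ℝ) / 3) := by
  obtain ⟨c, C, hc, hC, h⟩ := H731G.half_green_scale H985T.st_A H934SL.st_L
  refine ⟨c, C, hc, hC, fun x y r hy hr => ?_⟩
  obtain ⟨h1, h2⟩ := h x y r hy hr
  have e : (((|x| + y : ℤ)) : ℝ) = |(x : ℝ)| + y := by
    push_cast; rfl
  rw [e] at h1 h2
  rw [mul_assoc, mul_assoc]
  exact ⟨h1, h2⟩

end Pool.Agent.Results.MP_6c8efb_pr.GreenFunction
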